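import Mathlib
import Pool.Agent.Y729.AH.Main

/-!
# Frey's inequality for elliptic curves with full two-torsion, ordered by the conductor: all heights

Frey's inequality says that `h_F(A) ≤ (n / 2 + ε) log N_A + c` for all abelian varieties `A` over
`ℚ` of dimension `n`. Let `L` be a number field of degree `n`, and consider the Weil restrictions
`A = Res_{L/ℚ} E` of the elliptic curves `E` over `L` with full `L`-rational two-torsion. Then
`h_F(A) = n h_F(E)` (stable heights; isogeny invariance is not used, the Weil restriction becomes the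
product of the conjugates of `E`), and `N_A = N(f_E) |D_L| ^ 2` (Milne), where the norm `N(f_E)` of the
conductor of `E` is a multiple of the product `badNorm E` of the norms of the bad primes.

The curves are ordered by `badNorm` only: there is NO restriction on their heights. We show that

* there are `X ^ (2 / 3 + o(1))` invariants `j ∈ L` of such curves `E` with `badNorm E ≤ X`;
* for every slope `κ > 1 / 6` and every `c`, the invariants `j` of the curves with
  `h_F(A) ≥ κ log (badNorm E) + c` and `badNorm E ≤ X` form a proportion `≤ X ^ (-ν)` of them, `ν > 0`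
  (in particular for Frey's slopes `n / 2 + ε`, and `1 / 6` is smaller than all of these);
* for every slope `κ < 1 / 6` and every `c`, ALL but finitely many invariants are the invariant of such
  a curve `E` with `h_F(A) > κ log (badNorm E) + c`, so that the slope `1 / 6` is the right one.

The proof combines the theorem of this project on almost all points of the line `x + y + z = 0`
(points of all heights, ordered by the radical), the heights of the Legendre parameters, and
Silverman's formula.
-/

set_option autoImplicit false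

namespace Pool.Agent.Results.MP_c59389_nt.AllHeightsFullTwoTorsion

open NumberField IsDedekindDomain

/-- the modular invariant `j(τ) = E₄(τ) ^ 3 / Δ(τ) = 1 / q + 744 + ⋯` -/
noncomputable def jInv (τ : UpperHalfPlane) : ℂ :=
  ModularForm.E₄ τ ^ 3 / ModularForm.discriminant τ

/-- the archimedean term `- log (|Δ(τ)| (Im τ) ^ 6)` of the Faltings height -/
noncomputable def arch (τ : UpperHalfPlane) : ℝ :=
  -Real.log (‖ModularForm.discriminant τ‖ * τ.im ^ 6)

/-- Silverman's formula for the stable Faltings height (up to an additive constant which depends on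
the normalisation of the metric only) of an elliptic curve with modular invariant `j ∈ K`, where
`τ w` is a point of the upper half plane with modular invariant `j` at the infinite place `w`:
`12 [K : ℚ] h_F = ∑_v log max(|j|_v, 1) + ∑_w [K_w : ℝ] arch (τ w)`. -/
noncomputable def faltings {K : Type} [Field K] [NumberField K] (j : K)
    (τ : InfinitePlace K → UpperHalfPlane) : ℝ :=
  (∑ᶠ v : HeightOneSpectrum (𝓞 K), Real.log (max (FinitePlace.mk v j) 1) +
    ∑ w : InfinitePlace K, (w.mult : ℝ) * arch (τ w)) / (12 * Module.finrank ℚ K)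

/-- the points `τ w` have modular invariant `j` -/
def IsPeriod {K : Type} [Field K] [NumberField K] (j : K)
    (τ : InfinitePlace K → UpperHalfPlane) : Prop := ∀ w, jInv (τ w) = w.embedding j

/-- full rational two-torsion: the polynomial of the first coordinates of the points of order two
has three roots -/
def FullTwo {K : Type} [Field K] (E : WeierstrassCurve K) : Prop :=
  ∃ e : Fin 3 → K, Function.Injective e ∧
    ∀ i, 4 * e i ^ 3 + E.b₂ * e i ^ 2 + 2 * E.b₄ * e i + E.b₆ = 0

/-- good reduction at `v`: some Weierstrass equation over `K` of the curve is integral at `v` and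
has a discriminant which is a unit at `v` -/
def GoodAt {K : Type} [Field K] [NumberField K] (v : HeightOneSpectrum (𝓞 K))
    (E : WeierstrassCurve K) : Prop :=
  ∃ C : WeierstrassCurve.VariableChange K,
    v.valuation K (C • E).a₁ ≤ 1 ∧ v.valuation K (C • E).a₂ ≤ 1 ∧ v.valuation K (C • E).a₃ ≤ 1 ∧
    v.valuation K (C • E).a₄ ≤ 1 ∧ v.valuation K (C • E).a₆ ≤ 1 ∧ v.valuation K (C • E).Δ = 1

/-- the product of the norms of the primes of bad reduction; it divides the norm of the
conductor -/
noncomputable def badNorm {K : Type} [Field K] [NumberField K] (E : WeierstrassCurve K) : ℝ :=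
  ∏ᶠ v ∈ {v : HeightOneSpectrum (𝓞 K) | ¬ GoodAt v E}, (Ideal.absNorm v.asIdeal : ℝ)

/-- the modular invariants of the elliptic curves over `L` with full rational two-torsion and
`badNorm E ≤ X` (of any height) -/
def Invariants (L : Type) [Field L] [NumberField L] (X : ℝ) : Set L :=
  {j | ∃ E : WeierstrassCurve L, E.Δ ≠ 0 ∧ FullTwo E ∧ E.c₄ ^ 3 / E.Δ = j ∧ badNorm E ≤ X}

/-- the modular invariants of such curves `E` with `κ log (badNorm E) + c ≤ n h_F(E) = h_F(A)`,
`A = Res_{L/ℚ} E` -/
def Violators (L : Type) [Field L] [NumberField L] (κ c X : ℝ) : Set L :=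
  {j | ∃ (E : WeierstrassCurve L) (τ : InfinitePlace L → UpperHalfPlane), E.Δ ≠ 0 ∧ FullTwo E ∧
    E.c₄ ^ 3 / E.Δ = j ∧ badNorm E ≤ X ∧ IsPeriod j τ ∧
    κ * Real.log (badNorm E) + c ≤ Module.finrank ℚ L * faltings j τ}

/-- **Frey's inequality for almost all elliptic curves with full two-torsion over a number field,
ordered by the bad primes, with the exact slope `1 / 6`.** -/
theorem result (L : Type) [Field L] [NumberField L] :
    (∀ δ : ℝ, 0 < δ → ∃ X₀ : ℝ, ∀ X : ℝ, X₀ ≤ X → (Invariants L X).Finite ∧
      X ^ (2 / 3 - δ) ≤ ((Invariants L X).ncard : ℝ) ∧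
      ((Invariants L X).ncard : ℝ) ≤ X ^ (2 / 3 + δ)) ∧
    (∀ κ c : ℝ, 1 / 6 < κ → ∃ ν X₀ : ℝ, 0 < ν ∧ ∀ X : ℝ, X₀ ≤ X →
      ((Violators L κ c X).ncard : ℝ) ≤ X ^ (-ν) * (Invariants L X).ncard) ∧
    (∀ κ c : ℝ, κ < 1 / 6 → ∃ F : Set L, F.Finite ∧ ∀ E : WeierstrassCurve L, E.Δ ≠ 0 →
      FullTwo E → E.c₄ ^ 3 / E.Δ ∉ F → ∃ E' : WeierstrassCurve L, E'.Δ ≠ 0 ∧ FullTwo E' ∧
        E'.c₄ ^ 3 / E'.Δ = E.c₄ ^ 3 / E.Δ ∧ ∀ τ : InfinitePlace L → UpperHalfPlane,
          IsPeriod (E.c₄ ^ 3 / E.Δ) τ →
          κ * Real.log (badNorm E') + c < Module.finrank ℚ L * faltings (E.c₄ ^ 3 / E.Δ) τ) := by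
  refine ⟨fun δ hδ => ?_, Pool.Agent.Y729.AH.almost L, Pool.Agent.Y729.AH.sharp L⟩
  obtain ⟨X1, h1, h2⟩ := Pool.Agent.Y729.AH.cls_upper L δ hδ
  obtain ⟨X2, h3, h4⟩ := Pool.Agent.Y729.AH.cls_lower L δ hδ
  exact ⟨max X1 X2, fun X hX => ⟨Pool.Agent.Y729.AH.cls_finite L
    (h1.trans ((le_max_left _ _).trans hX)), h4 X ((le_max_right _ _).trans hX),
    h2 X ((le_max_left _ _).trans hX)⟩⟩

end Pool.Agent.Results.MP_c59389_nt.AllHeightsFullTwoTorsion
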