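import Mathlib
import Pool.Agent.Results.MP_6e34ef_nt.SparseTriples
import Pool.Agent.Y724.T4.FRS

set_option autoImplicit false

/-!
# Frey's inequality for the Weil restrictions of the sparse elliptic curves over all number fields of
degree `n`

Frey's inequality says that `h_F(A) ≤ (n / 2 + ε) log N_A + c` for all abelian varieties `A` over
`ℚ` of dimension `n`. We prove it, with `1 / 2 + ε` in place of `n / 2 + ε` and with one constant `c`,
for the Weil restrictions `A = Res_{L/ℚ} E`, where `L` runs over ALL number fields of degree `n` and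
`E` over all elliptic curves over `L` for which the triple `c₄ ^ 3`, `- c₆ ^ 2`, `- 1728 Δ` of sum
zero and its radical are sparse (up to a common factor: so every quadratic twist is allowed). Here
`h_F(A) = n h_F(E)` (stable Faltings heights) and `N_A = N_{L/ℚ}(f_E) |D_L| ^ 2` (Milne), where
`f_E` is the conductor of `E`, so that `N_A` is a multiple of `|D_L| ^ 2` times the product of the
norms of the primes of bad reduction of `E`. Sparse: sums of boundedly many vectors with small
entries multiplied by `S`-units, with respect to a basis of the `S`-integers of `L` whose structure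
constants are of the same kind (see `MP_6e34ef_nt.SparseTriples`).
-/

namespace Pool.Agent.Results.MP_c59389_nt.SparseCurves

open NumberField IsDedekindDomain
open Pool.Agent.Results.MP_6e34ef_nt.SparseTriples (SpansIntegers IsSparseTriple logH logN
  logRootDisc)

/-- the modular invariant `j(τ) = E₄(τ) ^ 3 / Δ(τ) = 1 / q + 744 + ⋯` -/
noncomputable def jInv (τ : UpperHalfPlane) : ℂ :=
  ModularForm.E₄ τ ^ 3 / ModularForm.discriminant τ

/-- the archimedean term `- log (|Δ(τ)| (Im τ) ^ 6)` of the Faltings height -/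
noncomputable def arch (τ : UpperHalfPlane) : ℝ :=
  -Real.log (‖ModularForm.discriminant τ‖ * τ.im ^ 6)

/-- Silverman's formula for the stable Faltings height (up to an additive constant which depends on
the normalisation of the metric only) of an elliptic curve with modular invariant `j ∈ K`, where
`τ w` is a point of the upper half plane with modular invariant `j` at the infinite place `w`:
`12 [K : ℚ] h_F = ∑_v log max(|j|_v, 1) + ∑_w [K_w : ℝ] arch (τ w)`. -/
noncomputable def faltings {K : Type} [Field K] [NumberField K] (j : K)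
    (τ : InfinitePlace K → UpperHalfPlane) : ℝ :=
  (∑ᶠ v : HeightOneSpectrum (𝓞 K), Real.log (max (FinitePlace.mk v j) 1) +
    ∑ w : InfinitePlace K, (w.mult : ℝ) * arch (τ w)) / (12 * Module.finrank ℚ K)

/-- the points `τ w` have modular invariant `j` -/
def IsPeriod {K : Type} [Field K] [NumberField K] (j : K)
    (τ : InfinitePlace K → UpperHalfPlane) : Prop := ∀ w, jInv (τ w) = w.embedding j

/-- good reduction at `v`: some Weierstrass equation over `K` of the curve is integral at `v` and
has a discriminant which is a unit at `v` -/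
def GoodAt {K : Type} [Field K] [NumberField K] (v : HeightOneSpectrum (𝓞 K))
    (E : WeierstrassCurve K) : Prop :=
  ∃ C : WeierstrassCurve.VariableChange K,
    v.valuation K (C • E).a₁ ≤ 1 ∧ v.valuation K (C • E).a₂ ≤ 1 ∧ v.valuation K (C • E).a₃ ≤ 1 ∧
    v.valuation K (C • E).a₄ ≤ 1 ∧ v.valuation K (C • E).a₆ ≤ 1 ∧ v.valuation K (C • E).Δ = 1

/-- the product of the norms of the primes of bad reduction; it divides the norm of the
conductor -/
noncomputable def badNorm {K : Type} [Field K] [NumberField K] (E : WeierstrassCurve K) : ℝ :=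
  ∏ᶠ v ∈ {v : HeightOneSpectrum (𝓞 K) | ¬ GoodAt v E}, (Ideal.absNorm v.asIdeal : ℝ)

/-- the triple `c₄ ^ 3`, `- c₆ ^ 2`, `- 1728 Δ` (of sum zero), multiplied by `s` -/
def triple {K : Type} [Field K] (E : WeierstrassCurve K) (s : K) : Fin 3 → K :=
  ![s * E.c₄ ^ 3, -(s * E.c₆ ^ 2), -(1728 * (s * E.Δ))]

/-- The sparse elliptic curves over `K`: `c₄ = 0` or `c₆ = 0`, or the triple `c₄ ^ 3`, `- c₆ ^ 2`,
`- 1728 Δ`, multiplied by a suitable number `s`, is sparse with respect to the basis `ω`. -/
def IsSparseCurve {K : Type} [Field K] [NumberField K] {n : ℕ} (S : Finset ℕ) (l m : ℕ)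
    (A B δ : ℝ) (ω : Module.Basis (Fin n) ℚ K) (E : WeierstrassCurve K) : Prop :=
  E.c₄ = 0 ∨ E.c₆ = 0 ∨ ∃ s : K, s ≠ 0 ∧ IsSparseTriple S l m A B δ ω (triple E s)

/-- **Main theorem.** For every `n`, all finite sets `S` of primes, all `l`, `m`, all real `A`, `B` and
`ε > 0` there are `δ > 0` and a constant `C` such that
`n h_F(E) ≤ (1 / 2 + ε) log (R |D_L|) + C`, `R` the product of the norms of the primes of bad
reduction of `E`, for all number fields `L` of degree `n` and all elliptic curves `E` over `L` which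
are sparse with respect to some basis of the `S`-integers of `L`. -/
theorem result (n : ℕ) (S : Finset ℕ) (hS : ∀ p ∈ S, p.Prime) (l m : ℕ) (A B ε : ℝ)
    (hε : 0 < ε) :
    ∃ (δ C : ℝ), 0 < δ ∧ ∀ (L : Type) [Field L] [NumberField L] (ω : Module.Basis (Fin n) ℚ L)
      (E : WeierstrassCurve L) (τ : InfinitePlace L → UpperHalfPlane),
      SpansIntegers S ω → E.Δ ≠ 0 → IsPeriod (E.c₄ ^ 3 / E.Δ) τ →
      IsSparseCurve S l m A B δ ω E →
      n * faltings (E.c₄ ^ 3 / E.Δ) τ ≤
        (1 / 2 + ε) * Real.log (badNorm E * |(discr L : ℝ)|) + C := by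
  classical
  set ε1 : ℝ := ε / (3 + 5 * ε) with hε1
  have hε10 : 0 < ε1 := by positivity
  set q : ℝ := 1 / 6 - 5 / 6 * ε1 with hq
  have hq0 : 0 < q := by
    have : ε1 < 1 / 5 := by
      rw [hε1, div_lt_div_iff₀ (by positivity) (by norm_num)]
      linarith
    rw [hq]
    linarith
  have hqe : 1 + ε1 = (6 + 12 * ε) * q := by
    rw [hq, hε1]
    field_simp
    ring
  obtain ⟨δ, C, hδ, hmain⟩ :=
    Pool.Agent.Results.MP_6e34ef_nt.SparseTriples.result S hS n l m A B ε1 hε10
  obtain ⟨c1, hc1, hfal⟩ := Pool.Agent.Y729.FW.fal_two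
  obtain ⟨c2, hc2, hroot⟩ := Pool.Agent.Y724.T4.root_height1
    (Polynomial.X * (Polynomial.X - Polynomial.C 1728)) (mul_ne_zero Polynomial.X_ne_zero
      (Polynomial.X_sub_C_ne_zero _))
  have hlog6 : 0 ≤ Real.log 6 := Real.log_nonneg (by norm_num)
  have hlog17 : 0 ≤ Real.log 1728 := Real.log_nonneg (by norm_num)
  set C1 : ℝ := ((1 + ε1) * Real.log 6 + |C|) / q with hC1
  have hC10 : 0 ≤ C1 := by positivity
  refine ⟨δ, n / 12 * (C1 + Real.log 1728 + c1 + c2), hδ, ?_⟩
  intro L _ _ ω E τ hspan hΔ hτ hsp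
  have hnK : Module.finrank ℚ L = n := by
    rw [Module.finrank_eq_card_basis ω, Fintype.card_fin]
  have hn0 : 0 < n := by
    rw [← hnK]
    exact Module.finrank_pos
  have hnR : (0 : ℝ) < n := by exact_mod_cast hn0
  -- the bad primes and the discriminant
  have hfin := Pool.Agent.TH876.TT.bad L E hΔ
  have hbad1 : 1 ≤ badNorm E := by
    have h1 : badNorm E = ∏ w ∈ hfin.toFinset, (Ideal.absNorm w.asIdeal : ℝ) :=
      finprod_mem_eq_finite_toFinset_prod _ hfin
    rw [h1]
    calc (1 : ℝ) = ∏ _w ∈ hfin.toFinset, (1 : ℝ) := by rw [Finset.prod_const_one]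
      _ ≤ _ := Finset.prod_le_prod (fun _ _ => zero_le_one)
          fun w _ => (Pool.Agent.Y729.AE.one_lt_N w).le
  have hD1 : (1 : ℝ) ≤ |(discr L : ℝ)| := by
    have h1 : (1 : ℤ) ≤ |NumberField.discr L| := Int.one_le_abs (NumberField.discr_ne_zero L)
    have h2 : ((1 : ℤ) : ℝ) ≤ ((|NumberField.discr L| : ℤ) : ℝ) := by exact_mod_cast h1
    rwa [Int.cast_abs, Int.cast_one] at h2
  have hlogb : 0 ≤ Real.log (badNorm E) := Real.log_nonneg hbad1
  have hlogD : 0 ≤ Real.log |(discr L : ℝ)| := Real.log_nonneg hD1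
  have hlogm : Real.log (badNorm E * |(discr L : ℝ)|) =
      Real.log (badNorm E) + Real.log |(discr L : ℝ)| :=
    Real.log_mul (by linarith) (by linarith)
  rw [hlogm]
  have hF : 12 * n * faltings (E.c₄ ^ 3 / E.Δ) τ ≤
      Height.logHeight₁ (E.c₄ ^ 3 / E.Δ) + c1 * n := by
    have := hfal L (E.c₄ ^ 3 / E.Δ) τ hτ
    rw [hnK] at this
    exact this
  -- the two special cases
  have hspecial : (E.c₄ = 0 ∨ E.c₆ = 0) → n * faltings (E.c₄ ^ 3 / E.Δ) τ ≤
      (1 / 2 + ε) * (Real.log (badNorm E) + Real.log |(discr L : ℝ)|) +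
        n / 12 * (C1 + Real.log 1728 + c1 + c2) := by
    intro h
    have h1 := hroot L (E.c₄ ^ 3 / E.Δ) (by
      rw [map_mul, map_sub, Polynomial.aeval_X, Polynomial.aeval_C]
      rcases h with h | h
      · rw [h]
        simp
      · have h2 : E.c₄ ^ 3 = 1728 * E.Δ := by
          have := E.c_relation
          rw [h] at this
          linear_combination -this
        rw [h2, mul_div_assoc, div_self hΔ, mul_one]
        simp)
    rw [hnK] at h1
    have h2 : 0 ≤ (1 / 2 + ε) * (Real.log (badNorm E) + Real.log |(discr L : ℝ)|) := by positivity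
    have h3 : 0 ≤ n / 12 * (C1 + Real.log 1728) := by positivity
    linarith
  rcases hsp with h | h | ⟨s, hs, hsp⟩
  · exact hspecial (Or.inl h)
  · exact hspecial (Or.inr h)
  by_cases h4 : E.c₄ = 0
  · exact hspecial (Or.inl h4)
  by_cases h6 : E.c₆ = 0
  · exact hspecial (Or.inr h6)
  have htri := Pool.Agent.Y724.T4.FRS.tri_ne E hs h4 h6 hΔ
  have h1 := hmain n le_rfl L ω (triple E s) htri
    (Pool.Agent.Y724.T4.FRS.tri_sum E s) hspan hsp
  have h2 := Pool.Agent.Y724.T4.FRS.cond_le E hs h4 h6 hΔ
  have h3 := Pool.Agent.Y724.T4.FRS.j_le E hs h4 h6 hΔ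
  rw [hnK] at h2 h3
  set T : ℝ := Height.logHeight (Pool.Agent.Y724.T4.FRS.tri E s) with hT
  have e1 : logH (triple E s) = T / n := by
    unfold logH
    rw [hnK]
    rfl
  have e2 : logN (triple E s) ≤ (Real.log (badNorm E) + Real.log 6 * n + 5 / 6 * T) / n := by
    unfold logN
    rw [hnK]
    exact div_le_div_of_nonneg_right h2 hnR.le
  have e3 : logRootDisc L = Real.log |(discr L : ℝ)| / n := by
    unfold logRootDisc
    rw [hnK]
  rw [e1, e3] at h1
  have h5 : T / n ≤ (1 + ε1) * (Real.log |(discr L : ℝ)| / n +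
      (Real.log (badNorm E) + Real.log 6 * n + 5 / 6 * T) / n) + |C| := by
    have := mul_le_mul_of_nonneg_left e2 (by linarith : (0 : ℝ) ≤ 1 + ε1)
    have := le_abs_self C
    linarith
  have h6' : T ≤ (1 + ε1) * (Real.log |(discr L : ℝ)| +
      (Real.log (badNorm E) + Real.log 6 * n + 5 / 6 * T)) + |C| * n := by
    have h7 := mul_le_mul_of_nonneg_right h5 hnR.le
    have h8 : T / n * n = T := div_mul_cancel₀ _ hnR.ne'
    have h9 : ((1 + ε1) * (Real.log |(discr L : ℝ)| / n +
        (Real.log (badNorm E) + Real.log 6 * n + 5 / 6 * T) / n) + |C|) * n =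
        (1 + ε1) * (Real.log |(discr L : ℝ)| +
          (Real.log (badNorm E) + Real.log 6 * n + 5 / 6 * T)) + |C| * n := by
      field_simp
    rw [h8, h9] at h7
    exact h7
  have h10 : q * T ≤ q * ((6 + 12 * ε) * (Real.log |(discr L : ℝ)| + Real.log (badNorm E)) +
      n * C1) := by
    have h11 : q * (n * C1) = n * ((1 + ε1) * Real.log 6 + |C|) := by
      rw [hC1]
      field_simp
    have h12 : q * ((6 + 12 * ε) * (Real.log |(discr L : ℝ)| + Real.log (badNorm E))) =
        (1 + ε1) * (Real.log |(discr L : ℝ)| + Real.log (badNorm E)) := by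
      rw [hqe]
      ring
    rw [mul_add, h11, h12, hq]
    linarith
  have h13 := le_of_mul_le_mul_left h10 hq0
  have h14 : 0 ≤ (n : ℝ) / 12 * c2 := by positivity
  linarith

end Pool.Agent.Results.MP_c59389_nt.SparseCurves
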