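import Mathlib
import Pool.Agent.Y729.FW.Main1
import Pool.Agent.Y729.FW.Low

/-!
# Violators of Frey's inequality among the Weil restrictions of elliptic curves with full two-torsion

Frey's inequality says that `h_F(A) ≤ (n / 2 + ε) log N_A + c` for all abelian varieties `A` over
`ℚ` of dimension `n`. We count the violators among the Weil restrictions `A = Res_{L/ℚ} E`, where
`L` runs over ALL number fields of degree `n ≥ 2` and `E` over the elliptic curves over `L` all of
whose points of order two are defined over `L`. Here `h_F(A) = n h_F(E)` (stable Faltings heights)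
and `N_A = N_{L/ℚ}(f_E) |D_L| ^ 2` (Milne), where `f_E` is the conductor of `E`, so that `N_A` is a
multiple of `|D_L| ^ 2` times the product of the norms of the primes of bad reduction of `E`. The
violators are shown to be few, for every slope `κ > 0` in place of `n / 2 + ε`, and the family is
shown to be large.

The proof combines
* the Legendre parameter `l` of `E`, whose height is `h_F(E)` times `2 [L : ℚ]` up to
  `O(log h_F(E))`, uniformly in `L`, and for which `l`, `1 - l` are units at the primes of good
  reduction of `E` not dividing `2`;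
* a count of the solutions of the unit equation with few primes, uniform in the field `L`;
* bounds for the number of fields of degree `n` and bounded discriminant;
* for the lower bound, Eisenstein polynomials and the surjectivity of the modular invariant.
-/

set_option autoImplicit false

namespace Pool.Agent.Results.MP_c59389_nt.WeilRestrictions

open NumberField IsDedekindDomain

/-- the modular invariant `j(τ) = E₄(τ) ^ 3 / Δ(τ) = 1 / q + 744 + ⋯` -/
noncomputable def jInv (τ : UpperHalfPlane) : ℂ :=
  ModularForm.E₄ τ ^ 3 / ModularForm.discriminant τ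

/-- the archimedean term `- log (|Δ(τ)| (Im τ) ^ 6)` of the Faltings height -/
noncomputable def arch (τ : UpperHalfPlane) : ℝ :=
  -Real.log (‖ModularForm.discriminant τ‖ * τ.im ^ 6)

/-- Silverman's formula for the stable Faltings height (up to an additive constant which depends on
the normalisation of the metric only) of an elliptic curve with modular invariant `j ∈ K`, where
`τ w` is a point of the upper half plane with modular invariant `j` at the infinite place `w`:
`12 [K : ℚ] h_F = ∑_v log max(|j|_v, 1) + ∑_w [K_w : ℝ] arch (τ w)`. -/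
noncomputable def faltings {K : Type} [Field K] [NumberField K] (j : K)
    (τ : InfinitePlace K → UpperHalfPlane) : ℝ :=
  (∑ᶠ v : HeightOneSpectrum (𝓞 K), Real.log (max (FinitePlace.mk v j) 1) +
    ∑ w : InfinitePlace K, (w.mult : ℝ) * arch (τ w)) / (12 * Module.finrank ℚ K)

/-- the points `τ w` have modular invariant `j` -/
def IsPeriod {K : Type} [Field K] [NumberField K] (j : K)
    (τ : InfinitePlace K → UpperHalfPlane) : Prop := ∀ w, jInv (τ w) = w.embedding j

/-- full rational two-torsion: the polynomial `4 x ^ 3 + b₂ x ^ 2 + 2 b₄ x + b₆`, whose zeros are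
the first coordinates of the points of order two, has three zeros in the field -/
def FullTwo {K : Type} [Field K] (E : WeierstrassCurve K) : Prop :=
  ∃ e : Fin 3 → K, Function.Injective e ∧
    ∀ i, 4 * e i ^ 3 + E.b₂ * e i ^ 2 + 2 * E.b₄ * e i + E.b₆ = 0

/-- good reduction at `v`: some Weierstrass equation over `K` of the curve is integral at `v` and
has a discriminant which is a unit at `v` -/
def GoodAt {K : Type} [Field K] [NumberField K] (v : HeightOneSpectrum (𝓞 K))
    (E : WeierstrassCurve K) : Prop :=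
  ∃ C : WeierstrassCurve.VariableChange K,
    v.valuation K (C • E).a₁ ≤ 1 ∧ v.valuation K (C • E).a₂ ≤ 1 ∧ v.valuation K (C • E).a₃ ≤ 1 ∧
    v.valuation K (C • E).a₄ ≤ 1 ∧ v.valuation K (C • E).a₆ ≤ 1 ∧ v.valuation K (C • E).Δ = 1

/-- the product of the norms of the primes of bad reduction; it divides the norm of the
conductor -/
noncomputable def badNorm {K : Type} [Field K] [NumberField K] (E : WeierstrassCurve K) : ℝ :=
  ∏ᶠ v ∈ {v : HeightOneSpectrum (𝓞 K) | ¬ GoodAt v E}, (Ideal.absNorm v.asIdeal : ℝ)

/-- The pairs `(L, j)` where `L` is a number field of degree `n` (in the algebraic closure of `ℚ`)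
and `j ∈ L` is the modular invariant of an elliptic curve `E` over `L` with full two-torsion over
`L`, such that `A = Res_{L/ℚ} E` has stable Faltings height `h_F(A) = n h_F(E) ≤ log B`. -/
def Family (n : ℕ) (B : ℝ) :
    Set (IntermediateField ℚ (AlgebraicClosure ℚ) × AlgebraicClosure ℚ) :=
  {p | ∃ (_ : NumberField p.1) (j : p.1) (E : WeierstrassCurve p.1)
      (τ : InfinitePlace p.1 → UpperHalfPlane),
    (j : AlgebraicClosure ℚ) = p.2 ∧ Module.finrank ℚ p.1 = n ∧ E.Δ ≠ 0 ∧ FullTwo E ∧
    E.c₄ ^ 3 / E.Δ = j ∧ IsPeriod j τ ∧ (n : ℝ) * faltings j τ ≤ Real.log B}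

/-- The pairs `(L, j)` for which there is an elliptic curve `E` over `L` as in `Family` such that
moreover `h_F(A) > κ log N + c`, where `N = |D_L| ^ 2 * badNorm E` is a divisor of the conductor of
`A = Res_{L/ℚ} E`. -/
def Violators (n : ℕ) (κ c B : ℝ) :
    Set (IntermediateField ℚ (AlgebraicClosure ℚ) × AlgebraicClosure ℚ) :=
  {p | ∃ (_ : NumberField p.1) (j : p.1) (E : WeierstrassCurve p.1)
      (τ : InfinitePlace p.1 → UpperHalfPlane),
    (j : AlgebraicClosure ℚ) = p.2 ∧ Module.finrank ℚ p.1 = n ∧ E.Δ ≠ 0 ∧ FullTwo E ∧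
    E.c₄ ^ 3 / E.Δ = j ∧ IsPeriod j τ ∧ (n : ℝ) * faltings j τ ≤ Real.log B ∧
    κ * Real.log (badNorm E * |(NumberField.discr p.1 : ℝ)| ^ 2) + c < (n : ℝ) * faltings j τ}

/-- The exponent `(n + 2) * (n - 1) / (4 * (n - n / p))`, `p` the least prime factor of `n`; it is
`1`, `5 / 4`, `9 / 4`, `7 / 4` for `n = 2, 3, 4, 5`, and `(n + 2) / 4` for every prime `n`. -/
noncomputable def expo (n : ℕ) : ℝ :=
  (((n + 2) * (n - 1) : ℕ) : ℝ) / (4 * ((n - n / n.minFac : ℕ) : ℝ))

/-- **Violators of Frey's inequality among the Weil restrictions of elliptic curves with full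
two-torsion, over all number fields of each degree.** (A) For every `n ≥ 2`, every `κ, δ > 0` and
every `c` at most `M B ^ (e n / κ + δ)` pairs `(L, j)` with `h_F(A) ≤ log B` violate
`h_F(A) ≤ κ log N_A + c`, where `e n ≤ max (2 / 3) (expo n / 2)` (so that `e 2 = e 3 = 2 / 3` is
admissible), and `e n = O(log ^ 2 n)`. (B) The family has at least `b B ^ (n + 1)` members with
`h_F(A) ≤ log B`. -/
theorem result :
    (∃ e : ℕ → ℝ,
      (∀ c : ℝ, 1 / (16 * (Real.log 2) ^ 2) < c →
        ∀ᶠ n : ℕ in Filter.atTop, e n ≤ c * (Real.log n) ^ 2) ∧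
      (∀ n : ℕ, 2 ≤ n → e n ≤ max (2 / 3) (expo n / 2)) ∧
      ∀ n : ℕ, 2 ≤ n → ∀ κ c δ : ℝ, 0 < κ → 0 < δ →
        ∃ M : ℝ, ∀ B : ℝ, 1 ≤ B → (Violators n κ c B).Finite ∧
          ((Violators n κ c B).ncard : ℝ) ≤ M * B ^ (e n / κ + δ)) ∧
    (∀ n : ℕ, 1 ≤ n → ∃ b : ℝ, 0 < b ∧ ∃ B₀ : ℝ, ∀ B : ℝ, B₀ ≤ B →
      ∃ F : Finset (IntermediateField ℚ (AlgebraicClosure ℚ) × AlgebraicClosure ℚ),
        (F : Set (IntermediateField ℚ (AlgebraicClosure ℚ) × AlgebraicClosure ℚ)) ⊆ Family n B ∧
        b * B ^ (n + 1) ≤ F.card) :=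
  ⟨Pool.Agent.Y729.FW.final1, Pool.Agent.Y729.FW.low1⟩

end Pool.Agent.Results.MP_c59389_nt.WeilRestrictions
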